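import Mathlib

/-! Abstract lemmas on finite groups used by the certificate checkers. -/

namespace Pool.Agent.Lib.MP_14dda7_al

variable {G : Type} [Group G]

/-- a submonoid of a finite group is a subgroup -/
def finSub [Finite G] (p : G → Prop) (h1 : p 1) (hm : ∀ a b, p a → p b → p (a * b)) :
    Subgroup G where
  carrier := {g | p g}
  one_mem' := h1
  mul_mem' := fun {a b} ha hb => hm a b ha hb
  inv_mem' := fun {a} ha => by
    have hp : ∀ n : ℕ, p (a ^ n) := by
      intro n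
      induction n with
      | zero => rw [pow_zero]; exact h1
      | succ n ih => rw [pow_succ]; exact hm _ _ ih ha
    have h0 : 0 < orderOf a := orderOf_pos a
    have e : a⁻¹ = a ^ (orderOf a - 1) := by
      rw [inv_eq_iff_mul_eq_one, ← pow_succ', Nat.sub_add_cancel h0, pow_orderOf_eq_one]
    show p a⁻¹
    rw [e]
    exact hp _

theorem mem_finSub [Finite G] {p : G → Prop} {h1 : p 1} {hm : ∀ a b, p a → p b → p (a * b)}
    {g : G} : g ∈ finSub p h1 hm ↔ p g := Iff.rfl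

/-- a set closed under right multiplication by generators -/
theorem closure_right [Finite G] (X : G → Prop) (S : Set G)
    (h : ∀ g ∈ S, ∀ x, X x → X (x * g)) {g : G} (hg : g ∈ Subgroup.closure S) :
    ∀ x, X x → X (x * g) := by
  have : Subgroup.closure S ≤ finSub (fun g => ∀ x, X x → X (x * g))
      (fun x hx => by rwa [mul_one])
      (fun a b ha hb x hx => by rw [← mul_assoc]; exact hb _ (ha x hx)) :=
    (Subgroup.closure_le _).2 h
  exact this hg

theorem card_le_cover [Finite G] (H S : Subgroup G) (T : Set G)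
    (h : ∀ g ∈ H, ∃ s ∈ S, ∃ t ∈ T, g = s * t) : Nat.card H ≤ Nat.card S * T.ncard := by
  choose s hs t ht e using h
  have := Nat.card_le_card_of_injective
    (fun g : H => ((⟨s g g.2, hs g g.2⟩, ⟨t g g.2, ht g g.2⟩) : S × T)) (fun g g' hh => by
      simp only [Prod.mk.injEq, Subtype.mk.injEq] at hh
      apply Subtype.ext
      rw [e g g.2, e g' g'.2, hh.1, hh.2])
  rwa [Nat.card_prod, Nat.card_coe_set_eq] at this

theorem mem_of_pow_coprime {N : Subgroup G} {a : G} {j p : ℕ} (h1 : a ^ j ∈ N) (h2 : a ^ p ∈ N)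
    (h : Nat.Coprime j p) : a ∈ N := by
  have e := Nat.gcd_eq_gcd_ab j p
  rw [h] at e
  have : a = (a ^ j) ^ (Nat.gcdA j p) * (a ^ p) ^ (Nat.gcdB j p) := by
    rw [← zpow_natCast, ← zpow_natCast, ← zpow_mul, ← zpow_mul, ← zpow_add, ← e]
    simp
  rw [this]
  exact N.mul_mem (N.zpow_mem h1 _) (N.zpow_mem h2 _)

/-- one step of a polycyclic series -/
theorem pc_step [Finite G] (S : Set G) (a : G) (p : ℕ) (hp : p.Prime)
    (h1 : a ^ p ∈ Subgroup.closure S)
    (h2 : ∀ b ∈ S, a * b * a⁻¹ ∈ Subgroup.closure S) (h3 : a ∉ Subgroup.closure S) :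
    (∀ g ∈ Subgroup.closure (insert a S), ∃ e < p, ∃ n ∈ Subgroup.closure S, g = n * a ^ e) ∧
      Nat.card (Subgroup.closure (insert a S)) = p * Nat.card (Subgroup.closure S) := by
  set N := Subgroup.closure S with hN
  have c1 : ∀ n ∈ N, a * n * a⁻¹ ∈ N := by
    have : N ≤ N.comap (MulAut.conj a).toMonoidHom := (Subgroup.closure_le _).2 h2
    exact fun n hn => this hn
  have c2 : ∀ e : ℕ, ∀ n ∈ N, a ^ e * n * (a ^ e)⁻¹ ∈ N := by
    intro e
    induction e with
    | zero => intro n hn; simpa using hn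
    | succ e ih =>
      intro n hn
      have := c1 _ (ih n hn)
      have e' : a ^ (e + 1) * n * (a ^ (e + 1))⁻¹ = a * (a ^ e * n * (a ^ e)⁻¹) * a⁻¹ := by
        rw [pow_succ']; group
      rwa [e']
  have key : ∀ g ∈ Subgroup.closure (insert a S), ∃ e < p, ∃ n ∈ N, g = n * a ^ e := by
    intro g hg
    have := closure_right (fun x => ∃ e < p, ∃ n ∈ N, x = n * a ^ e) (insert a S) ?_ hg 1
      ⟨0, hp.pos, 1, N.one_mem, by simp⟩
    · rwa [one_mul] at this
    rintro b (rfl | hb) x ⟨e, he, n, hn, rfl⟩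
    · rcases Nat.lt_or_ge (e + 1) p with g | g
      · exact ⟨e + 1, g, n, hn, by rw [pow_succ, mul_assoc]⟩
      · have : e + 1 = p := by omega
        exact ⟨0, hp.pos, n * b ^ p, N.mul_mem hn h1, by
          rw [← this, pow_succ, pow_zero, mul_one, mul_assoc]⟩
    · exact ⟨e, he, n * (a ^ e * b * (a ^ e)⁻¹),
        N.mul_mem hn (c2 e b (Subgroup.subset_closure hb)), by group⟩
  refine ⟨key, ?_⟩
  have hle : N ≤ Subgroup.closure (insert a S) :=
    Subgroup.closure_mono (Set.subset_insert _ _)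
  have ha : a ∈ Subgroup.closure (insert a S) := Subgroup.subset_closure (Set.mem_insert _ _)
  have aux : ∀ (e e' : ℕ) (n n' : G), n ∈ N → n' ∈ N → e < p → e' < e → n * a ^ e ≠ n' * a ^ e' := by
    intro e e' n n' hn hn' he hlt g
    obtain ⟨j, rfl⟩ := Nat.exists_eq_add_of_lt hlt
    have e1 : a ^ (j + 1) = n⁻¹ * n' := by
      have : e' + j + 1 = (j + 1) + e' := by omega
      rw [this, pow_add, ← mul_assoc] at g
      rw [← mul_right_cancel g]; group
    refine h3 (mem_of_pow_coprime (j := j + 1) (by rw [e1]; exact N.mul_mem (N.inv_mem hn) hn') h1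
      (Nat.Coprime.symm ((Nat.Prime.coprime_iff_not_dvd hp).2
        (Nat.not_dvd_of_pos_of_lt (by omega) (by omega)))))
  have := Nat.card_eq_of_bijective
    (fun x : Fin p × N => (⟨x.2.1 * a ^ x.1.1,
      Subgroup.mul_mem _ (hle x.2.2) (Subgroup.pow_mem _ ha _)⟩ :
        Subgroup.closure (insert a S))) ⟨?_, ?_⟩
  · rw [← this, Nat.card_prod, Nat.card_eq_fintype_card, Fintype.card_fin]
  · rintro ⟨e, n⟩ ⟨e', n'⟩ g
    simp only [Subtype.mk.injEq] at g
    rcases lt_trichotomy e.1 e'.1 with l | l | l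
    · exact absurd g.symm (aux _ _ _ _ n'.2 n.2 e'.2 l)
    · rw [l] at g
      exact Prod.ext (Fin.ext l) (Subtype.ext (mul_right_cancel g))
    · exact absurd g (aux _ _ _ _ n.2 n'.2 e.2 l)
  · rintro ⟨g, hg⟩
    obtain ⟨e, he, n, hn, rfl⟩ := key g hg
    exact ⟨(⟨e, he⟩, ⟨n, hn⟩), rfl⟩

/-- an element of order 17 fixing a single coset -/
theorem index_mod [Finite G] (K : Subgroup G) (c : G) (hc : c ∈ K) (h17 : c ^ 17 = 1)
    (hfix : ∀ m, m * c * m⁻¹ ∈ K → m ∈ K) : K.index % 17 = 1 := by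
  have : Fact (Nat.Prime 17) := ⟨by norm_num⟩
  have hP : IsPGroup 17 (Subgroup.zpowers c) := by
    rintro ⟨g, n, rfl⟩
    refine ⟨1, Subtype.ext ?_⟩
    simp only [pow_one, Subgroup.coe_pow, Subgroup.coe_one]
    rw [← zpow_natCast, ← zpow_mul, mul_comm, zpow_mul, zpow_natCast, h17, one_zpow]
  have h1 := hP.card_modEq_card_fixedPoints (G ⧸ K)
  have h2 : MulAction.fixedPoints (Subgroup.zpowers c) (G ⧸ K) = {((1 : G) : G ⧸ K)} := by
    ext q
    obtain ⟨m, rfl⟩ := QuotientGroup.mk_surjective q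
    simp only [MulAction.mem_fixedPoints, Set.mem_singleton_iff]
    constructor
    · intro h
      have : (m : G ⧸ K) = ((c * m : G) : G ⧸ K) := (h ⟨c, Subgroup.mem_zpowers c⟩).symm
      rw [QuotientGroup.eq] at this
      have g := hfix m⁻¹ (by simpa [mul_assoc] using this)
      rw [QuotientGroup.eq, mul_one]
      exact g
    · rintro h ⟨g, hg⟩
      rw [h]
      show ((g * 1 : G) : G ⧸ K) = _
      rw [QuotientGroup.eq]
      simpa using (Subgroup.zpowers_le.2 hc) hg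
  rw [h2] at h1
  simpa [Nat.ModEq, Subgroup.index] using h1

theorem relIndex_mod [Finite G] (K M : Subgroup G) (hKM : K ≤ M) (c : G) (hc : c ∈ K)
    (h17 : c ^ 17 = 1) (hfix : ∀ m ∈ M, m * c * m⁻¹ ∈ K → m ∈ K) : K.relIndex M % 17 = 1 :=
  index_mod (K.subgroupOf M) ⟨c, hKM hc⟩ hc (Subtype.ext h17) (fun m h => hfix m m.2 h)

theorem card_eq_relIndex [Finite G] {K H : Subgroup G} (h : K ≤ H) :
    Nat.card H = Nat.card K * K.relIndex H := by
  rw [Subgroup.relIndex, ← (K.subgroupOf H).card_mul_index,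
    Nat.card_congr (Subgroup.subgroupOfEquivOfLe h).toEquiv]

theorem simple_of [Finite G] (H K : Subgroup G) (hKH : K ≤ H) (c : G) (hc : c ∈ K)
    (h17 : c ^ 17 = 1) (hfix : ∀ m ∈ H, m * c * m⁻¹ ∈ K → m ∈ K) (hidx : K.relIndex H = 2058)
    (hK : Nat.card K = 1958400)
    (core : ∀ n, (∀ h ∈ H, h * n * h⁻¹ ∈ K) → n = 1)
    (gen : ∀ N : Subgroup G, (∀ h ∈ H, ∀ n ∈ N, h * n * h⁻¹ ∈ N) →
      (∀ h ∈ H, h ^ 7 = 1 → h ∈ N) → H ≤ N) : IsSimpleGroup H := by
  have : Nontrivial H := by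
    rw [← Finite.one_lt_card_iff_nontrivial, card_eq_relIndex hKH, hK, hidx]
    norm_num
  refine ⟨fun N0 hN0 => ?_⟩
  set N := N0.map H.subtype with hN
  have NH : N ≤ H := Subgroup.map_subtype_le _
  have conj : ∀ h ∈ H, ∀ n ∈ N, h * n * h⁻¹ ∈ N := by
    rintro h hh _ ⟨n, hn, rfl⟩
    exact ⟨_, hN0.conj_mem n hn ⟨h, hh⟩, rfl⟩
  let M : Subgroup G := finSub (fun h => ∃ k ∈ K, ∃ n ∈ N, h = k * n)
    ⟨1, K.one_mem, 1, N.one_mem, by simp⟩ (by
      rintro _ _ ⟨k, hk, n, hn, rfl⟩ ⟨k', hk', n', hn', rfl⟩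
      exact ⟨k * k', K.mul_mem hk hk', k'⁻¹ * n * k'⁻¹⁻¹ * n',
        N.mul_mem (conj _ (H.inv_mem (hKH hk')) n hn) hn', by group⟩)
  have KM : K ≤ M := fun k hk => ⟨k, hk, 1, N.one_mem, by simp⟩
  have NM : N ≤ M := fun n hn => ⟨1, K.one_mem, n, hn, by simp⟩
  have MH : M ≤ H := by
    rintro _ ⟨k, hk, n, hn, rfl⟩
    exact H.mul_mem (hKH hk) (NH hn)
  have h1 := relIndex_mod K M KM c hc h17 (fun m hm => hfix m (MH hm))
  have h2 := Subgroup.relIndex_mul_relIndex K M H KM MH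
  rw [hidx] at h2
  have h3 : K.relIndex M = 1 ∨ K.relIndex M = 2058 := by
    have hd : K.relIndex M ∈ Nat.divisors 2058 :=
      Nat.mem_divisors.2 ⟨Dvd.intro _ h2, by norm_num⟩
    have : ∀ d ∈ Nat.divisors 2058, d % 17 = 1 → d = 1 ∨ d = 2058 := by decide +kernel
    exact this _ hd h1
  rcases h3 with h3 | h3
  · left
    have NK : N ≤ K := NM.trans (Subgroup.relIndex_eq_one.1 h3)
    rw [eq_bot_iff]
    intro n hn
    have hn' : (n : G) ∈ N := ⟨n, hn, rfl⟩
    exact Subtype.ext (core n (fun h hh => NK (conj h hh _ hn')))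
  · right
    rw [h3] at h2
    have HM : H ≤ M := Subgroup.relIndex_eq_one.1 (by omega)
    have HN : H ≤ N := by
      refine gen N conj (fun h hh h7 => ?_)
      obtain ⟨k, hk, n, hn, e⟩ := HM hh
      have pw : ∀ m : ℕ, ∃ n' ∈ N, h ^ m = k ^ m * n' := by
        intro m
        induction m with
        | zero => exact ⟨1, N.one_mem, by simp⟩
        | succ m ih =>
          obtain ⟨n', hn', e'⟩ := ih
          refine ⟨k⁻¹ * n' * k⁻¹⁻¹ * n, N.mul_mem (conj _ (H.inv_mem (hKH hk)) n' hn') hn, ?_⟩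
          rw [pow_succ, e', e, pow_succ]; group
      obtain ⟨n', hn', e'⟩ := pw 1958400
      have k1 : k ^ 1958400 = 1 := by
        have := pow_card_eq_one' (G := K) (x := ⟨k, hk⟩)
        rw [hK] at this
        exact congrArg Subtype.val this
      rw [k1, one_mul] at e'
      exact mem_of_pow_coprime (j := 1958400) (p := 7) (e' ▸ hn') (h7 ▸ N.one_mem) (by norm_num)
    rw [eq_top_iff]
    intro h _
    obtain ⟨n, hn, e⟩ := HN h.2
    rwa [← Subtype.ext e]

end Pool.Agent.Lib.MP_14dda7_al
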