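import Pool.Agent.Lib.MP_14dda7_al.Bit
import Pool.Agent.Lib.MP_14dda7_al.Grp

/-! Certificate checkers for words in packed matrices and their soundness. -/

namespace Pool.Agent.Lib.MP_14dda7_al

open Matrix

def Ok (A : ℕ) : Prop := IsUnit (toM A)

open Classical in
noncomputable def un (A : ℕ) : GG := if h : IsUnit (toM A) then h.unit else 1

theorem un_val {A : ℕ} (h : Ok A) : (un A : Mat) = toM A := by
  unfold un
  rw [dif_pos (show IsUnit (toM A) from h)]
  rfl

theorem ok_idm : Ok idm := by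
  rw [Ok, toM_idm]; exact isUnit_one

theorem Ok.mul {A B : ℕ} (h : Ok A) (h' : Ok B) : Ok (mul A B) := by
  rw [Ok, toM_mul]; exact IsUnit.mul h h'

def pwN (A n : ℕ) : ℕ := Nat.rec A (fun _ acc => mul acc A) n

theorem toM_pwN (A n : ℕ) : toM (pwN A n) = toM A ^ (n + 1) := by
  induction n with
  | zero => simp [pwN]
  | succ n ih =>
    have e : pwN A (n + 1) = mul (pwN A n) A := rfl
    rw [e, toM_mul, ih, ← pow_succ]

theorem ok_of_pw {A n : ℕ} (h : Nat.beq (pwN A n) idm = true) : Ok A := by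
  have := toM_pwN A n
  rw [Nat.eq_of_beq_eq_true h, toM_idm] at this
  exact IsUnit.of_pow_eq_one this.symm (by omega)

theorem ok_getD (L : List (ℕ × ℕ)) (h : L.all (fun x => Nat.beq (pwN x.1 x.2) idm) = true)
    (i : ℕ) : Ok ((L.map Prod.fst).getD i idm) := by
  rw [List.getD_eq_getElem?_getD]
  cases g : (L.map Prod.fst)[i]? with
  | none => exact ok_idm
  | some A =>
    obtain ⟨x, hx, rfl⟩ := List.mem_map.1 (List.mem_of_getElem? g)
    exact ok_of_pw (List.all_eq_true.1 h x hx)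

variable (E : ℕ → ℕ)

noncomputable def gam (i : ℕ) : GG := un (E i)

def ev (w : List ℕ) : ℕ := w.foldl (fun M i => mul M (E i)) idm

noncomputable def wp (w : List ℕ) : GG := (w.map (gam E)).prod

def Sg (l : List ℕ) : Subgroup GG := Subgroup.closure {g | ∃ i ∈ l, gam E i = g}

def eqw (w w' : List ℕ) : Bool := Nat.beq (ev E w) (ev E w')

def sub (w l : List ℕ) : Bool := w.all (fun i => l.contains i)

@[simp] theorem wp_nil : wp E [] = 1 := rfl

@[simp] theorem wp_cons (i : ℕ) (w : List ℕ) : wp E (i :: w) = gam E i * wp E w := by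
  simp [wp]

@[simp] theorem wp_append (w w' : List ℕ) : wp E (w ++ w') = wp E w * wp E w' := by
  simp [wp]

theorem wp_replicate (n i : ℕ) : wp E (List.replicate n i) = gam E i ^ n := by
  simp [wp]

theorem gam_mem {l : List ℕ} {i : ℕ} (h : i ∈ l) : gam E i ∈ Sg E l :=
  Subgroup.subset_closure ⟨i, h, rfl⟩

theorem Sg_le {l : List ℕ} {N : Subgroup GG} (h : ∀ i ∈ l, gam E i ∈ N) : Sg E l ≤ N :=
  (Subgroup.closure_le _).2 (by rintro _ ⟨i, hi, rfl⟩; exact h i hi)

theorem Sg_cons (a : ℕ) (l : List ℕ) :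
    Sg E (a :: l) = Subgroup.closure (insert (gam E a) {g | ∃ i ∈ l, gam E i = g}) := by
  unfold Sg
  congr 1
  ext g
  simp [eq_comm]

theorem wp_mem' {w : List ℕ} {N : Subgroup GG} (h : ∀ i ∈ w, gam E i ∈ N) : wp E w ∈ N := by
  induction w with
  | nil => exact N.one_mem
  | cons i w ih =>
    rw [wp_cons]
    exact N.mul_mem (h i (by simp)) (ih (fun j hj => h j (by simp [hj])))

theorem wp_mem {w l : List ℕ} (h : sub w l = true) : wp E w ∈ Sg E l :=
  wp_mem' E (fun i hi => gam_mem E (by simpa using List.all_eq_true.1 h i hi))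

variable {E} (hE : ∀ i, Ok (E i))
include hE

theorem gam_val (i : ℕ) : (gam E i : Mat) = toM (E i) := un_val (hE i)

theorem toM_foldl (w : List ℕ) : ∀ M, toM (w.foldl (fun M i => mul M (E i)) M) =
    toM M * (wp E w : Mat) := by
  induction w with
  | nil => intro M; simp
  | cons i w ih =>
    intro M
    rw [List.foldl_cons, ih, toM_mul, wp_cons, Units.val_mul, gam_val hE, mul_assoc]

theorem toM_ev (w : List ℕ) : toM (ev E w) = (wp E w : Mat) := by
  rw [ev, toM_foldl hE, toM_idm, one_mul]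

theorem eqw_sound {w w' : List ℕ} (h : eqw E w w' = true) : wp E w = wp E w' := by
  apply Units.ext
  rw [← toM_ev hE, ← toM_ev hE, Nat.eq_of_beq_eq_true h]

omit hE in
def chkMem (E : ℕ → ℕ) (l : List ℕ) (cs : List (ℕ × List ℕ)) : Bool :=
  cs.all (fun e => sub e.2 l && eqw E [e.1] e.2)

theorem mem_sound {l : List ℕ} {cs : List (ℕ × List ℕ)} (h : chkMem E l cs = true) :
    Sg E (cs.map Prod.fst) ≤ Sg E l := by
  refine Sg_le E (fun i hi => ?_)
  obtain ⟨e, he, rfl⟩ := List.mem_map.1 hi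
  have := List.all_eq_true.1 h e he
  rw [Bool.and_eq_true] at this
  have g := eqw_sound hE this.2
  rw [wp_cons, wp_nil, mul_one] at g
  rw [g]
  exact wp_mem E this.1

omit hE in
def chkTab (E : ℕ → ℕ) (lS lG : List ℕ) (T : List (List ℕ))
    (cert : List (List ℕ × ℕ × List ℕ × List ℕ)) : Bool :=
  T.all (fun t => lG.all (fun g => cert.any (fun e => e.1 == t && e.2.1 == g &&
    T.contains e.2.2.2 && sub e.2.2.1 lS && eqw E (t ++ [g]) (e.2.2.1 ++ e.2.2.2))))

theorem tab_sound {lS lG : List ℕ} {T : List (List ℕ)}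
    {cert : List (List ℕ × ℕ × List ℕ × List ℕ)} (h : chkTab E lS lG T cert = true)
    (h0 : [] ∈ T) : ∀ g ∈ Sg E lG, ∃ s ∈ Sg E lS, ∃ t ∈ T, g = s * wp E t := by
  intro g hg
  have := closure_right (fun x => ∃ s ∈ Sg E lS, ∃ t ∈ T, x = s * wp E t) _ ?_ hg 1
    ⟨1, Subgroup.one_mem _, [], h0, by simp⟩
  · rwa [one_mul] at this
  rintro _ ⟨i, hi, rfl⟩ _ ⟨s, hs, t, ht, rfl⟩
  obtain ⟨e, -, he⟩ := List.any_eq_true.1 (List.all_eq_true.1 (List.all_eq_true.1 h t ht) i hi)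
  simp only [Bool.and_eq_true] at he
  obtain ⟨⟨⟨-, h1⟩, h2⟩, h3⟩ := he
  have g := eqw_sound hE h3
  simp only [wp_append, wp_cons, wp_nil, mul_one] at g
  exact ⟨s * wp E e.2.2.1, Subgroup.mul_mem _ hs (wp_mem E h2), e.2.2.2, by simpa using h1,
    by rw [mul_assoc, g, mul_assoc]⟩

theorem tab_card {lS lG : List ℕ} {T : List (List ℕ)}
    {cert : List (List ℕ × ℕ × List ℕ × List ℕ)} (h : chkTab E lS lG T cert = true)
    (h0 : [] ∈ T) : Nat.card (Sg E lG) ≤ Nat.card (Sg E lS) * T.length := by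
  classical
  refine (card_le_cover _ (Sg E lS) (↑(T.map (wp E)).toFinset) (fun g hg => ?_)).trans ?_
  · obtain ⟨s, hs, t, ht, e⟩ := tab_sound hE h h0 g hg
    exact ⟨s, hs, wp E t, by simpa using ⟨t, ht, rfl⟩, e⟩
  · rw [Set.ncard_coe_finset]
    exact Nat.mul_le_mul_left _ ((List.toFinset_card_le _).trans (by simp))

omit hE in
def rel (E : ℕ → ℕ) (cert : List (List ℕ × List ℕ)) (l lhs pre suf : List ℕ) : Bool :=
  cert.any (fun e => e.1 == lhs && sub e.2 l && eqw E lhs (pre ++ e.2 ++ suf))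

theorem rel_sound {cert : List (List ℕ × List ℕ)} {l lhs pre suf : List ℕ}
    (h : rel E cert l lhs pre suf = true) :
    ∃ n ∈ Sg E l, wp E lhs = wp E pre * n * wp E suf := by
  obtain ⟨e, -, he⟩ := List.any_eq_true.1 h
  simp only [Bool.and_eq_true] at he
  exact ⟨_, wp_mem E he.1.2, by simpa [mul_assoc] using eqw_sound hE he.2⟩

omit hE in
/-- normal forms -/
def NF (E : ℕ → ℕ) : List (ℕ × ℕ) → GG → Prop
  | [], g => g = 1
  | x :: r, g => ∃ e < x.2, ∃ n, NF E r n ∧ g = n * gam E x.1 ^ e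

omit hE in
def dfs {σ : Type} (st : ℕ → σ → σ) (test : σ → Bool) (l : List (ℕ × ℕ)) : σ → Bool :=
  List.rec test (fun x _ ih =>
    Nat.rec (fun _ => true) (fun _ ih2 s => ih s && ih2 (st x.1 s)) x.2) l

omit hE in
theorem dfs_sound {σ : Type} {st : ℕ → σ → σ} {test : σ → Bool} (R : σ → GG → Prop)
    (l : List (ℕ × ℕ)) (hst : ∀ x ∈ l, ∀ s g, R s g → R (st x.1 s) (gam E x.1 * g)) :
    ∀ s g, dfs st test l s = true → R s g → ∀ n, NF E l n →
      ∃ s', R s' (n * g) ∧ test s' = true := by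
  induction l with
  | nil =>
    intro s g h hr n hn
    rw [show n = 1 from hn, one_mul]
    exact ⟨s, hr, h⟩
  | cons x r ih =>
    have inner : ∀ (p : ℕ) (s : σ) (g : GG),
        (Nat.rec (fun _ => true) (fun _ ih2 s => dfs st test r s && ih2 (st x.1 s)) p :
          σ → Bool) s = true → R s g → ∀ e < p,
        ∃ s', R s' (gam E x.1 ^ e * g) ∧ dfs st test r s' = true := by
      intro p
      induction p with
      | zero => intro s g _ _ e he; omega
      | succ p ihp =>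
        intro s g h hr e he
        simp only [Bool.and_eq_true] at h
        rcases e with _ | e
        · exact ⟨s, by simpa using hr, h.1⟩
        · obtain ⟨s', h1, h2⟩ := ihp _ _ h.2 (hst x (by simp) s g hr) e (by omega)
          exact ⟨s', by rwa [pow_succ, mul_assoc], h2⟩
    rintro s g h hr _ ⟨e, he, n, hn, rfl⟩
    obtain ⟨s', h1, h2⟩ := inner x.2 s g h hr e he
    rw [mul_assoc]
    exact ih (fun y hy => hst y (by simp [hy])) s' _ h2 h1 n hn

omit hE in
def chkPc (E : ℕ → ℕ) (cert : List (List ℕ × List ℕ)) (l : List (ℕ × ℕ)) : Bool :=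
  List.rec true (fun x r ih =>
    rel E cert (r.map Prod.fst) (List.replicate x.2 x.1) [] [] &&
    (r.map Prod.fst).all (fun b => rel E cert (r.map Prod.fst) [x.1, b] [] [x.1]) &&
    dfs (fun a M => mul (E a) M) (fun M => neM M idm) r (E x.1) && ih) l

theorem pc_sound (cert : List (List ℕ × List ℕ)) (l : List (ℕ × ℕ))
    (h : chkPc E cert l = true) (hp : ∀ x ∈ l, x.2.Prime) :
    (∀ g ∈ Sg E (l.map Prod.fst), NF E l g) ∧
      Nat.card (Sg E (l.map Prod.fst)) = (l.map Prod.snd).prod := by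
  induction l with
  | nil =>
    have e : Sg E [] = ⊥ := le_bot_iff.1 (Sg_le E (by simp))
    rw [List.map_nil, e]
    exact ⟨fun g hg => hg, by simp⟩
  | cons x r ih =>
    have h' : (rel E cert (r.map Prod.fst) (List.replicate x.2 x.1) [] [] &&
      (r.map Prod.fst).all (fun b => rel E cert (r.map Prod.fst) [x.1, b] [] [x.1]) &&
      dfs (fun a M => mul (E a) M) (fun M => neM M idm) r (E x.1) && chkPc E cert r) = true := h
    simp only [Bool.and_eq_true] at h'
    obtain ⟨⟨⟨h1, h2⟩, h3⟩, h4⟩ := h'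
    obtain ⟨ih1, ih2⟩ := ih h4 (fun y hy => hp y (by simp [hy]))
    have key := pc_step {g | ∃ i ∈ r.map Prod.fst, gam E i = g} (gam E x.1) x.2 (hp x (by simp))
      ?_ ?_ ?_
    · rw [List.map_cons, Sg_cons, List.map_cons, List.prod_cons, ← ih2]
      refine ⟨fun g hg => ?_, key.2⟩
      obtain ⟨e, he, n, hn, rfl⟩ := key.1 g hg
      exact ⟨e, he, n, ih1 n hn, rfl⟩
    · obtain ⟨n, hn, e⟩ := rel_sound hE h1
      rw [wp_replicate, wp_nil, one_mul, mul_one] at e
      rw [e]; exact hn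
    · rintro _ ⟨b, hb, rfl⟩
      obtain ⟨n, hn, e⟩ := rel_sound hE (List.all_eq_true.1 h2 b hb)
      simp only [wp_cons, wp_nil, one_mul, mul_one] at e
      rw [e, mul_inv_cancel_right]; exact hn
    · intro ha
      obtain ⟨s', g1, g2⟩ := dfs_sound (E := E) (fun M g => toM M = (g : Mat)) r
        (fun y _ s g hr => by rw [toM_mul, hr, Units.val_mul, gam_val hE]) _ (gam E x.1) h3
        (gam_val hE _).symm _ (ih1 _ (Subgroup.inv_mem _ ha))
      refine neM_sound g2 ?_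
      rw [g1, inv_mul_cancel, toM_idm, Units.val_one]

omit hE in
def chkTop (E : ℕ → ℕ) (lK lB lB1 : List ℕ) (T2 Ty : List (List ℕ)) (g : ℕ)
    (c1 : List (List ℕ × List ℕ))
    (c2 : List (List ℕ × List ℕ × List ℕ × List ℕ × List ℕ × List ℕ)) : Bool :=
  lB1.all (fun a => rel E c1 lB [a, g] [g] []) &&
  T2.all (fun t => Ty.all (fun τ => c2.any (fun e => e.1 == t && e.2.1 == τ &&
    T2.contains e.2.2.2.2.1 && sub e.2.2.2.1 lK && sub e.2.2.2.2.2 lB &&
    eqw E (τ ++ e.2.2.1) [] &&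
    eqw E (t ++ e.2.2.1 ++ [g]) (e.2.2.2.1 ++ e.2.2.2.2.1 ++ e.2.2.2.2.2))))

theorem top_sound {lK lB lB1 : List ℕ} {T2 Ty : List (List ℕ)} {g : ℕ}
    {c1 : List (List ℕ × List ℕ)}
    {c2 : List (List ℕ × List ℕ × List ℕ × List ℕ × List ℕ × List ℕ)}
    (h : chkTop E lK lB lB1 T2 Ty g c1 c2 = true)
    (hB : ∀ b ∈ Sg E lB, ∃ s ∈ Sg E lB1, ∃ τ ∈ Ty, b = s * wp E τ) (x : GG)
    (hx : ∃ k ∈ Sg E lK, ∃ t ∈ T2, ∃ b ∈ Sg E lB, x = k * wp E t * b) :
    ∃ k ∈ Sg E lK, ∃ t ∈ T2, ∃ b ∈ Sg E lB, x * gam E g = k * wp E t * b := by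
  rw [chkTop, Bool.and_eq_true] at h
  have cj : Sg E lB1 ≤ (Sg E lB).comap (MulAut.conj (gam E g)⁻¹).toMonoidHom := by
    refine Sg_le E (fun a ha => ?_)
    obtain ⟨n, hn, e⟩ := rel_sound hE (List.all_eq_true.1 h.1 a ha)
    simp only [wp_cons, wp_nil, mul_one] at e
    rw [Subgroup.mem_comap, MulEquiv.coe_toMonoidHom, MulAut.conj_apply]
    rw [inv_inv, mul_assoc, e, inv_mul_cancel_left]
    exact hn
  obtain ⟨k, hk, t, ht, b, hb, rfl⟩ := hx
  obtain ⟨s, hs, τ, hτ, e0⟩ := hB _ (Subgroup.inv_mem _ hb)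
  obtain ⟨e, -, he⟩ := List.any_eq_true.1 (List.all_eq_true.1 (List.all_eq_true.1 h.2 t ht) τ hτ)
  simp only [Bool.and_eq_true] at he
  obtain ⟨⟨⟨⟨⟨-, h1⟩, h2⟩, h3⟩, h4⟩, h5⟩ := he
  have g4 := eqw_sound hE h4
  have g5 := eqw_sound hE h5
  simp only [wp_append, wp_cons, wp_nil, mul_one] at g4 g5
  have cs : (gam E g)⁻¹ * s⁻¹ * (gam E g)⁻¹⁻¹ ∈ Sg E lB := by
    have := Subgroup.mem_comap.1 (cj (Subgroup.inv_mem _ hs))
    rwa [MulEquiv.coe_toMonoidHom, MulAut.conj_apply] at this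
  refine ⟨k * wp E e.2.2.2.1, Subgroup.mul_mem _ hk (wp_mem E h2), e.2.2.2.2.1,
    by simpa using h1, _, Subgroup.mul_mem _ (wp_mem E h3) cs, ?_⟩
  have e1 : b = wp E e.2.2.1 * s⁻¹ := by
    have i4 : (wp E τ)⁻¹ = wp E e.2.2.1 := inv_eq_of_mul_eq_one_right g4
    rw [← i4, ← _root_.mul_inv_rev, ← e0, inv_inv]
  calc k * wp E t * b * gam E g
      = k * (wp E t * wp E e.2.2.1 * gam E g) * ((gam E g)⁻¹ * s⁻¹ * (gam E g)⁻¹⁻¹) := by
        rw [e1]; group
    _ = _ := by rw [g5]; group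

end Pool.Agent.Lib.MP_14dda7_al
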