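import Pool.Agent.Lib.MP_14dda7_al.Lin

/-! More checkers. -/

namespace Pool.Agent.Lib.MP_14dda7_al

open Matrix

def evS (E : ℕ → ℕ) (ws : List (List ℕ)) : ℕ := ws.foldl (fun M w => Nat.xor M (ev E w)) 0

def evP (E : ℕ → ℕ) (wss : List (List (List ℕ))) : ℕ :=
  wss.foldl (fun M ws => mul M (evS E ws)) idm

def kryN (A θ n : ℕ) : ℕ := Nat.rec A (fun _ K => Nat.xor A (mul (mul θ K) θ)) n

theorem toM_kryN (A θ n : ℕ) : toM (kryN A θ n) = kry (toM A) (toM θ) (toM θ) n := by
  induction n with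
  | zero => rfl
  | succ n ih =>
    have e : kryN A θ (n + 1) = Nat.xor A (mul (mul θ (kryN A θ n)) θ) := rfl
    rw [e, toM_xor, toM_mul, toM_mul, ih, kry]

def notStab (D M : ℕ) : Bool := neM (mul D M) (mul (mul D M) D)

theorem notStab_sound {D M : ℕ} (hD : toM D * toM D = toM D) (h : notStab D M = true) {k : GG}
    (e : toM M = (k : Mat)) : k ∉ StabL (toM D) := by
  rintro ⟨k', hk⟩
  refine neM_sound h ?_
  rw [toM_mul, toM_mul, toM_mul, e, hk, mul_assoc, hD]

theorem toM_beq {A B : ℕ} (h : Nat.beq A B = true) : toM A = toM B := by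
  rw [Nat.eq_of_beq_eq_true h]

def cfix (E : ℕ → ℕ) (D t ti c : ℕ) (l : List (ℕ × ℕ)) : Bool :=
  dfs (fun a (s : ℕ × ℕ) => (mul (E a) s.1, mul (mul (E a) s.2) (E (a + 8))))
    (fun s => (Nat.beq s.1 idm || notStab D s.2) && notStab D (mul (mul t s.2) ti)) l (idm, c)

variable {E : ℕ → ℕ} (hE : ∀ i, Ok (E i))
include hE

theorem evS_mem {l : List ℕ} {ws : List (List ℕ)} (h : ws.all (fun w => sub w l) = true) :
    toM (evS E ws) ∈ Alg (Sg E l) := by
  have key : ∀ (ws : List (List ℕ)) (M : ℕ), ws.all (fun w => sub w l) = true →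
      toM M ∈ Alg (Sg E l) →
      toM (ws.foldl (fun M w => Nat.xor M (ev E w)) M) ∈ Alg (Sg E l) := by
    intro ws
    induction ws with
    | nil => intro M _ hM; exact hM
    | cons w ws ih =>
      intro M h hM
      rw [List.all_cons, Bool.and_eq_true] at h
      refine ih _ h.2 ?_
      rw [toM_xor, toM_ev hE]
      exact Subsemiring.add_mem _ hM (Subsemiring.subset_closure ⟨_, wp_mem E h.1, rfl⟩)
  exact key ws 0 h (by rw [toM_zero]; exact Subsemiring.zero_mem _)

theorem evP_mem {l : List ℕ} {wss : List (List (List ℕ))}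
    (h : wss.all (fun ws => ws.all (fun w => sub w l)) = true) :
    toM (evP E wss) ∈ Alg (Sg E l) := by
  have key : ∀ (wss : List (List (List ℕ))) (M : ℕ),
      wss.all (fun ws => ws.all (fun w => sub w l)) = true → toM M ∈ Alg (Sg E l) →
      toM (wss.foldl (fun M ws => mul M (evS E ws)) M) ∈ Alg (Sg E l) := by
    intro wss
    induction wss with
    | nil => intro M _ hM; exact hM
    | cons ws wss ih =>
      intro M h hM
      rw [List.all_cons, Bool.and_eq_true] at h
      refine ih _ h.2 ?_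
      rw [toM_mul]
      exact Subsemiring.mul_mem _ hM (evS_mem hE h.1)
  exact key wss idm h (by rw [toM_idm]; exact Subsemiring.one_mem _)

theorem stabL_sound {D : ℕ} {l : List ℕ}
    (h : l.all (fun i => Nat.beq (mul D (E i)) (mul (mul D (E i)) D)) = true) :
    Sg E l ≤ StabL (toM D) := by
  refine Sg_le E (fun i hi => ⟨toM D * toM (E i), ?_⟩)
  have := toM_beq (List.all_eq_true.1 h i hi)
  rw [toM_mul, toM_mul, toM_mul] at this
  rw [gam_val hE]
  exact this

theorem stabR_sound {D L : ℕ} {l : List ℕ}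
    (h : l.all (fun i => Nat.beq (mul (E i) D) (mul D (mul (mul L (E i)) D))) = true) :
    Sg E l ≤ StabR (toM D) := by
  refine Sg_le E (fun i hi => ⟨toM (mul (mul L (E i)) D), ?_⟩)
  have := toM_beq (List.all_eq_true.1 h i hi)
  rw [toM_mul, toM_mul D] at this
  rw [gam_val hE]
  exact this

theorem good_sound {A B C C' : ℕ} {t : List ℕ}
    (h1 : Nat.beq (mul (mul (mul A (ev E t)) B) C) A = true)
    (h2 : Nat.beq (mul C' (mul (mul A (ev E t)) B)) B = true) :
    Good (toM A) (toM B) (wp E t : Mat) := by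
  have g1 := toM_beq h1
  have g2 := toM_beq h2
  simp only [toM_mul, toM_ev hE] at g1 g2
  exact ⟨⟨_, g1⟩, _, g2⟩

theorem cfix_sound {D c : ℕ} {t ti : List ℕ} {l : List (ℕ × ℕ)}
    (hD : toM D * toM D = toM D) (h : cfix E D (ev E t) (ev E ti) (E c) l = true)
    (hi : l.all (fun x => eqw E [x.1, x.1 + 8] []) = true) (ht : eqw E (t ++ ti) [] = true)
    (b : GG) (hb : NF E l b) :
    (b = 1 ∨ b * gam E c * b⁻¹ ∉ StabL (toM D)) ∧
      wp E t * b * gam E c * (wp E t * b)⁻¹ ∉ StabL (toM D) := by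
  refine (dfs_sound (E := E)
    (fun (s : ℕ × ℕ) g => toM s.1 = (g : Mat) ∧ toM s.2 = ((g * gam E c * g⁻¹ : GG) : Mat)) l
    (fun x hx s g hr => ?_) _ 1 h ⟨toM_idm, by simp [gam_val hE]⟩ b hb).elim (fun s hs => ?_)
  swap
  · obtain ⟨⟨g1, g2⟩, g3⟩ := hs
    rw [mul_one] at g1 g2
    simp only [Bool.and_eq_true, Bool.or_eq_true] at g3
    refine ⟨g3.1.imp (fun e => ?_) (fun e => notStab_sound hD e g2), notStab_sound hD g3.2 ?_⟩
    · apply Units.ext
      rw [← g1, toM_beq e, toM_idm, Units.val_one]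
    · have e := eqw_sound hE ht
      rw [wp_append, wp_nil] at e
      have e1 : wp E ti = (wp E t)⁻¹ := eq_inv_of_mul_eq_one_right e
      have e2 : wp E t * b * gam E c * (wp E t * b)⁻¹ =
          wp E t * (b * gam E c * b⁻¹) * wp E ti := by rw [e1]; group
      rw [e2, toM_mul, toM_mul, toM_ev hE, toM_ev hE, g2, ← Units.val_mul, ← Units.val_mul]
  · have e := eqw_sound hE (List.all_eq_true.1 hi x hx)
    rw [wp_cons, wp_cons, wp_nil, mul_one] at e
    have e1 : gam E (x.1 + 8) = (gam E x.1)⁻¹ := eq_inv_of_mul_eq_one_right e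
    have e2 : gam E x.1 * g * gam E c * (gam E x.1 * g)⁻¹ =
        gam E x.1 * (g * gam E c * g⁻¹) * gam E (x.1 + 8) := by rw [e1]; group
    refine ⟨?_, ?_⟩
    · rw [toM_mul, hr.1, Units.val_mul, gam_val hE]
    · rw [e2, toM_mul, toM_mul, hr.2, ← gam_val hE, ← gam_val hE, ← Units.val_mul,
        ← Units.val_mul]

end Pool.Agent.Lib.MP_14dda7_al
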