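import Mathlib

namespace Pool.Agent.Lib.MP_14dda7_al

open Matrix

/-- `S` meets every part of the partition `ρ` in exactly one point -/
def IsTransversal {Ω : Type} (ρ : Setoid Ω) (S : Set Ω) : Prop :=
  ∀ a, ∃! s, s ∈ S ∧ ρ s a

/-- the permutation group `G` on more than two points has no regular partition that is
non-trivial (some part has two points) and proper (more than one part) -/
def Synchronizing {Ω : Type} (G : Subgroup (Equiv.Perm Ω)) : Prop :=
  2 < Nat.card Ω ∧ ¬ ∃ ρ : Setoid Ω, (∃ a b, a ≠ b ∧ ρ a b) ∧ (∃ a b, ¬ ρ a b) ∧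
    ∃ S : Set Ω, ∀ g ∈ G, IsTransversal ρ (g '' S)

/-- the affine group of the maps `v ↦ v h + w`, `h ∈ H`, on row vectors -/
def affine {n : ℕ} (H : Subgroup (GL (Fin n) (ZMod 2))) :
    Subgroup (Equiv.Perm (Fin n → ZMod 2)) :=
  Subgroup.closure {σ | ∃ h ∈ H, ∃ w : Fin n → ZMod 2,
    ∀ v, σ v = v ᵥ* (h : Matrix (Fin n) (Fin n) (ZMod 2)) + w}

/-- no invariant subspace of row vectors besides zero and the whole space -/
def Irred {n : ℕ} (H : Subgroup (GL (Fin n) (ZMod 2))) : Prop :=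
  ∀ S : Submodule (ZMod 2) (Fin n → ZMod 2),
    (∀ h ∈ H, ∀ v ∈ S, v ᵥ* (h : Matrix (Fin n) (Fin n) (ZMod 2)) ∈ S) → S = ⊥ ∨ S = ⊤

/-- the group of the transposed matrices: the image of `H` on the dual module -/
def dual {n : ℕ} (H : Subgroup (GL (Fin n) (ZMod 2))) : Subgroup (GL (Fin n) (ZMod 2)) :=
  Subgroup.closure {g | ∃ h ∈ H,
    (g : Matrix (Fin n) (Fin n) (ZMod 2)) = (h : Matrix (Fin n) (Fin n) (ZMod 2))ᵀ}

end Pool.Agent.Lib.MP_14dda7_al
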