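import Pool.Agent.Lib.MP_14dda7_al.Defs
import Pool.Agent.Lib.MP_14dda7_al.Chk

/-! Linear algebra: stabilisers, transversals, irreducibility, the core of the stabiliser. -/

namespace Pool.Agent.Lib.MP_14dda7_al

open Matrix

theorem affine_elem {H : Subgroup GG} {σ : Equiv.Perm Vec} (h : σ ∈ affine H) :
    ∃ h ∈ H, ∃ w : Vec, ∀ v, σ v = v ᵥ* (h : Mat) + w := by
  have : affine H ≤ finSub (fun σ : Equiv.Perm Vec => ∃ h ∈ H, ∃ w : Vec,
      ∀ v, σ v = v ᵥ* (h : Mat) + w) ⟨1, H.one_mem, 0, by simp⟩ (by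
        rintro σ τ ⟨h, hh, w, e⟩ ⟨h', hh', w', e'⟩
        refine ⟨h' * h, H.mul_mem hh' hh, w' ᵥ* (h : Mat) + w, fun v => ?_⟩
        rw [Equiv.Perm.mul_apply, e, e', Matrix.add_vecMul, Matrix.vecMul_vecMul, Units.val_mul,
          add_assoc]) := (Subgroup.closure_le _).2 (fun _ h => h)
  exact this h

theorem dual_elem {H : Subgroup GG} {g : GG} (h : g ∈ dual H) :
    ∃ h ∈ H, (g : Mat) = (h : Mat)ᵀ := by
  have : dual H ≤ finSub (fun g : GG => ∃ h ∈ H, (g : Mat) = (h : Mat)ᵀ)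
      ⟨1, H.one_mem, by simp⟩ (by
        rintro g g' ⟨h, hh, e⟩ ⟨h', hh', e'⟩
        exact ⟨h' * h, H.mul_mem hh' hh, by
          rw [Units.val_mul, Units.val_mul, e, e', Matrix.transpose_mul]⟩) :=
    (Subgroup.closure_le _).2 (fun _ h => h)
  exact this h

theorem exists_dual {H : Subgroup GG} {h : GG} (hh : h ∈ H) :
    ∃ g ∈ dual H, (g : Mat) = (h : Mat)ᵀ :=
  ⟨⟨(h : Mat)ᵀ, ((h⁻¹ : GG) : Mat)ᵀ, by rw [← Matrix.transpose_mul, Units.inv_mul, transpose_one],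
    by rw [← Matrix.transpose_mul, Units.mul_inv, transpose_one]⟩,
    Subgroup.subset_closure ⟨h, hh, rfl⟩, rfl⟩

def StabL (D : Mat) : Subgroup GG := finSub (fun k => ∃ k' : Mat, D * (k : Mat) = k' * D)
  ⟨1, by simp⟩ (by
    rintro a b ⟨a', ha⟩ ⟨b', hb⟩
    exact ⟨a' * b', by rw [Units.val_mul, ← mul_assoc, ha, mul_assoc, hb, mul_assoc]⟩)

def StabR (D : Mat) : Subgroup GG := finSub (fun k => ∃ k' : Mat, (k : Mat) * D = D * k')
  ⟨1, by simp⟩ (by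
    rintro a b ⟨a', ha⟩ ⟨b', hb⟩
    exact ⟨a' * b', by rw [Units.val_mul, mul_assoc, hb, ← mul_assoc, ha, mul_assoc]⟩)

def Good (A B h : Mat) : Prop := (∃ C, A * h * B * C = A) ∧ ∃ C, C * (A * h * B) = B

theorem Good.mul {A B : Mat} {k t g : GG} (h : Good A B (t : Mat)) (hk : k ∈ StabL A)
    (hg : g ∈ StabR B) : Good A B ((k * t * g : GG) : Mat) := by
  obtain ⟨⟨C, hC⟩, C', hC'⟩ := h
  obtain ⟨k1, e1⟩ := hk
  obtain ⟨k2, e2⟩ := (StabL A).inv_mem ⟨k1, e1⟩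
  obtain ⟨g1, f1⟩ := hg
  obtain ⟨g2, f2⟩ := (StabR B).inv_mem ⟨g1, f1⟩
  have e0 : A * ((k * t * g : GG) : Mat) * B = k1 * (A * (t : Mat) * B) * g1 := by
    calc A * ((k * t * g : GG) : Mat) * B = (A * (k : Mat)) * (t : Mat) * ((g : Mat) * B) := by
          simp only [Units.val_mul, mul_assoc]
      _ = _ := by rw [e1, f1]; simp only [mul_assoc]
  have e3 : B * g1 * g2 = B := by
    rw [← f1, mul_assoc, ← f2, ← mul_assoc, Units.mul_inv, one_mul]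
  have e4 : k2 * k1 * A = A := by
    rw [mul_assoc, ← e1, ← mul_assoc, ← e2, mul_assoc, Units.inv_mul, mul_one]
  refine ⟨⟨g2 * C * ((k⁻¹ : GG) : Mat), ?_⟩, ((g⁻¹ : GG) : Mat) * C' * k2, ?_⟩
  · calc _ = k1 * (A * (t : Mat) * (B * g1 * g2) * C) * ((k⁻¹ : GG) : Mat) := by
          rw [e0]; simp only [mul_assoc]
      _ = A := by rw [e3, hC, ← e1, mul_assoc, Units.mul_inv, mul_one]
  · calc _ = ((g⁻¹ : GG) : Mat) * (C' * (k2 * k1 * A * (t : Mat) * B) * g1) := by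
          rw [e0]; simp only [mul_assoc]
      _ = B := by rw [e4, hC', ← f1, ← mul_assoc, Units.inv_mul, one_mul]

theorem Good.transpose {A B h : Mat} (g : Good A B h) : Good Bᵀ Aᵀ hᵀ := by
  obtain ⟨⟨C, hC⟩, C', hC'⟩ := g
  refine ⟨⟨C'ᵀ, ?_⟩, Cᵀ, ?_⟩
  · have := congrArg Matrix.transpose hC'
    simpa only [Matrix.transpose_mul, mul_assoc] using this
  · have := congrArg Matrix.transpose hC
    simpa only [Matrix.transpose_mul, mul_assoc] using this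

theorem not_sync (H : Subgroup GG) (A B Z : Mat) (hG : ∀ h ∈ H, Good A B (h : Mat))
    (hZ : Z ≠ 0) (hZB : Z * B = 0) (hB : B ≠ 0) : ¬ Synchronizing (affine H) := by
  intro hs
  refine hs.2 ⟨Setoid.ker (fun v : Vec => v ᵥ* B), ?_, ?_, Set.range (fun v : Vec => v ᵥ* A), ?_⟩
  · obtain ⟨v, hv⟩ := exists_vec_ne hZ
    refine ⟨_, 0, hv, ?_⟩
    rw [Setoid.ker_def, Matrix.vecMul_vecMul, hZB, Matrix.vecMul_zero, Matrix.zero_vecMul]
  · obtain ⟨v, hv⟩ := exists_vec_ne hB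
    refine ⟨v, 0, ?_⟩
    rwa [Setoid.ker_def, Matrix.zero_vecMul]
  · intro σ hσ a
    obtain ⟨h, hh, w, e⟩ := affine_elem hσ
    obtain ⟨⟨C, hC⟩, C', hC'⟩ := hG h hh
    have val : ∀ μ : Vec, σ (μ ᵥ* A) ᵥ* B = μ ᵥ* (A * (h : Mat) * B) + w ᵥ* B := by
      intro μ
      rw [e, Matrix.add_vecMul, Matrix.vecMul_vecMul, Matrix.vecMul_vecMul, mul_assoc]
    have ex : σ (((a - w) ᵥ* C') ᵥ* A) ᵥ* B = a ᵥ* B := by
      rw [val, Matrix.vecMul_vecMul, hC', Matrix.sub_vecMul, sub_add_cancel]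
    refine ⟨σ (((a - w) ᵥ* C') ᵥ* A), ⟨⟨_, ⟨_, rfl⟩, rfl⟩, ex⟩, ?_⟩
    rintro _ ⟨⟨_, ⟨μ, rfl⟩, rfl⟩, g⟩
    rw [Setoid.ker_def, ← ex, val, val] at g
    have := congrArg (fun v => v ᵥ* C) (add_right_cancel g)
    simp only [Matrix.vecMul_vecMul, mul_assoc] at this
    simp only [Matrix.vecMul_vecMul]
    rw [← mul_assoc, ← mul_assoc, hC] at this
    rw [this]

/-! ### irreducibility -/

def kry (E θ' θ : Mat) : ℕ → Mat
  | 0 => E
  | n + 1 => E + θ' * kry E θ' θ n * θ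

theorem kry_transpose (E θ' θ : Mat) (n : ℕ) : (kry E θ' θ n)ᵀ = kry Eᵀ θᵀ θ'ᵀ n := by
  induction n with
  | zero => rfl
  | succ n ih =>
    rw [kry, kry, Matrix.transpose_add, Matrix.transpose_mul, Matrix.transpose_mul, ih, mul_assoc]

theorem irr_of_kry (S : Submodule (ZMod 2) Vec) (E θ' θ : Mat) (n : ℕ)
    (hE : ∀ v ∈ S, v ᵥ* E ∈ S) (h1 : ∀ v ∈ S, v ᵥ* θ' ∈ S) (h2 : ∀ v ∈ S, v ᵥ* θ ∈ S)
    (r1 : ∃ u : Vec, ∀ v : Vec, v ᵥ* E = 0 ∨ v ᵥ* E = u) (hu : IsUnit (kry E θ' θ n)) :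
    S = ⊥ ∨ S = ⊤ := by
  obtain ⟨u, hr⟩ := r1
  obtain ⟨M, hM⟩ := hu
  by_cases h : ∀ v ∈ S, v ᵥ* E = 0
  · left
    have key : ∀ m, ∀ v ∈ S, v ᵥ* kry E θ' θ m = 0 := by
      intro m
      induction m with
      | zero => exact h
      | succ m ih =>
        intro v hv
        rw [kry, Matrix.vecMul_add, h v hv, ← Matrix.vecMul_vecMul, ← Matrix.vecMul_vecMul,
          ih _ (h1 v hv), Matrix.zero_vecMul, add_zero]
    rw [eq_bot_iff]
    intro v hv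
    have := congrArg (fun x => x ᵥ* ((M⁻¹ : GG) : Mat)) (key n v hv)
    simp only [← hM, Matrix.vecMul_vecMul, Units.mul_inv, Matrix.vecMul_one,
      Matrix.zero_vecMul] at this
    exact this
  · right
    push Not at h
    obtain ⟨v0, hv0, hne⟩ := h
    have hu : u ∈ S := by
      rw [← (hr v0).resolve_left hne]; exact hE v0 hv0
    have h0 : ∀ v : Vec, v ᵥ* E ∈ S := fun v => by
      rcases hr v with g | g <;> rw [g]
      · exact S.zero_mem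
      · exact hu
    have key : ∀ m, ∀ v : Vec, v ᵥ* kry E θ' θ m ∈ S := by
      intro m
      induction m with
      | zero => exact h0
      | succ m ih =>
        intro v
        rw [kry, Matrix.vecMul_add, ← Matrix.vecMul_vecMul, ← Matrix.vecMul_vecMul]
        exact S.add_mem (h0 v) (h2 _ (ih _))
    rw [eq_top_iff]
    intro v _
    have := key n (v ᵥ* ((M⁻¹ : GG) : Mat))
    rwa [← hM, Matrix.vecMul_vecMul, Units.inv_mul, Matrix.vecMul_one] at this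

def Alg (H : Subgroup GG) : Subsemiring Mat := Subsemiring.closure {A | ∃ h ∈ H, (h : Mat) = A}

theorem alg_row {H : Subgroup GG} {S : Submodule (ZMod 2) Vec}
    (hS : ∀ h ∈ H, ∀ v ∈ S, v ᵥ* (h : Mat) ∈ S) {A : Mat} (hA : A ∈ Alg H) :
    ∀ v ∈ S, v ᵥ* A ∈ S := by
  induction hA using Subsemiring.closure_induction with
  | mem x hx => obtain ⟨h, hh, rfl⟩ := hx; exact hS h hh
  | zero => intro v _; rw [Matrix.vecMul_zero]; exact S.zero_mem
  | one => intro v hv; rwa [Matrix.vecMul_one]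
  | add x y _ _ hx hy => intro v hv; rw [Matrix.vecMul_add]; exact S.add_mem (hx v hv) (hy v hv)
  | mul x y _ _ hx hy => intro v hv; rw [← Matrix.vecMul_vecMul]; exact hy _ (hx v hv)

theorem alg_col {H : Subgroup GG} {S : Submodule (ZMod 2) Vec}
    (hS : ∀ h ∈ dual H, ∀ v ∈ S, v ᵥ* (h : Mat) ∈ S) {A : Mat} (hA : A ∈ Alg H) :
    ∀ v ∈ S, v ᵥ* Aᵀ ∈ S := by
  induction hA using Subsemiring.closure_induction with
  | mem x hx =>
    obtain ⟨h, hh, rfl⟩ := hx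
    obtain ⟨g, hg, e⟩ := exists_dual hh
    rw [← e]; exact hS g hg
  | zero => intro v _; rw [Matrix.transpose_zero, Matrix.vecMul_zero]; exact S.zero_mem
  | one => intro v hv; rwa [Matrix.transpose_one, Matrix.vecMul_one]
  | add x y _ _ hx hy =>
    intro v hv
    rw [Matrix.transpose_add, Matrix.vecMul_add]; exact S.add_mem (hx v hv) (hy v hv)
  | mul x y _ _ hx hy =>
    intro v hv
    rw [Matrix.transpose_mul, ← Matrix.vecMul_vecMul]; exact hx _ (hy v hv)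

theorem irred_both (H : Subgroup GG) (Q Q' θ' θ : Mat) (n : ℕ) (hE : Q * toM 1 * Q' ∈ Alg H)
    (h1 : θ' ∈ Alg H) (h2 : θ ∈ Alg H) (hu : IsUnit (kry (Q * toM 1 * Q') θ' θ n)) :
    Irred H ∧ Irred (dual H) := by
  refine ⟨fun S hS => irr_of_kry S _ θ' θ n (alg_row hS hE) (alg_row hS h1) (alg_row hS h2)
    (rank_one Q Q') hu, fun S hS => irr_of_kry S _ θᵀ θ'ᵀ n (alg_col hS hE) (alg_col hS h2)
    (alg_col hS h1) ?_ ?_⟩
  · rw [Matrix.transpose_mul, Matrix.transpose_mul, toM_one_symm, ← mul_assoc]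
    exact rank_one _ _
  · rw [← kry_transpose]
    exact (Matrix.isUnit_transpose _).2 hu

/-! ### the core -/

theorem core_trivial (H : Subgroup GG) (hi : Irred H) (D D' C1 C2 Q Q' U : Mat) (g1 g2 : GG)
    (hg1 : g1 ∈ H) (hg2 : g2 ∈ H) (d1 : D * D = D) (d2 : D * D' = 0)
    (d3 : D * ((g1 : Mat) * D' * C1 + (g2 : Mat) * D' * C2 + Q * toM 1 * Q') = D)
    (u0 : U ≠ 0) (u1 : U * D = U)
    (u2 : U * (g1 : Mat) * D = U * (g1 : Mat)) (u3 : U * (g2 : Mat) * D = U * (g2 : Mat)) (n : GG)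
    (hn : ∀ h ∈ H, h * n * h⁻¹ ∈ StabL D) : n = 1 := by
  obtain ⟨v, hv⟩ := exists_vec_ne u0
  obtain ⟨r, hr⟩ := rank_one Q Q'
  have stab : ∀ k ∈ StabL D, ∀ x : Vec, x ᵥ* D = x → (x ᵥ* (k : Mat)) ᵥ* D = x ᵥ* (k : Mat) := by
    rintro k ⟨k', e⟩ x hx
    rw [← hx]
    simp only [Matrix.vecMul_vecMul]
    rw [e, mul_assoc, d1]
  have kill : ∀ (x : Vec) (g C : Mat), (x ᵥ* g) ᵥ* D = x ᵥ* g → x ᵥ* (g * D' * C) = 0 := by
    intro x g C e
    rw [← Matrix.vecMul_vecMul, ← Matrix.vecMul_vecMul, ← e, Matrix.vecMul_vecMul _ D D', d2,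
      Matrix.vecMul_zero, Matrix.zero_vecMul]
  have uniq : ∀ x : Vec, x ≠ 0 → x ᵥ* D = x → (x ᵥ* (g1 : Mat)) ᵥ* D = x ᵥ* (g1 : Mat) →
      (x ᵥ* (g2 : Mat)) ᵥ* D = x ᵥ* (g2 : Mat) → x = r := by
    intro x hx e1 e2 e3
    have e4 : x ᵥ* (Q * toM 1 * Q') = x := by
      conv_rhs => rw [← e1, ← d3, ← Matrix.vecMul_vecMul, e1, Matrix.vecMul_add, Matrix.vecMul_add,
        kill _ _ _ e2, kill _ _ _ e3, zero_add, zero_add]
    rw [← e4]
    exact (hr x).resolve_left (by rwa [e4])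
  have ne : ∀ (x : Vec) (g : GG), x ≠ 0 → x ᵥ* (g : Mat) ≠ 0 := by
    intro x g hx e
    apply hx
    have := congrArg (fun y => y ᵥ* ((g⁻¹ : GG) : Mat)) e
    simpa only [Matrix.vecMul_vecMul, Units.mul_inv, Matrix.vecMul_one, Matrix.zero_vecMul]
      using this
  have a1 : (v ᵥ* U) ᵥ* D = v ᵥ* U := by rw [Matrix.vecMul_vecMul, u1]
  have a2 : ((v ᵥ* U) ᵥ* (g1 : Mat)) ᵥ* D = (v ᵥ* U) ᵥ* (g1 : Mat) := by
    rw [Matrix.vecMul_vecMul v U, Matrix.vecMul_vecMul, u2]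
  have a3 : ((v ᵥ* U) ᵥ* (g2 : Mat)) ᵥ* D = (v ᵥ* U) ᵥ* (g2 : Mat) := by
    rw [Matrix.vecMul_vecMul v U, Matrix.vecMul_vecMul, u3]
  generalize v ᵥ* U = x at hv a1 a2 a3
  have fix : ∀ h ∈ H, x ᵥ* ((h * n * h⁻¹ : GG) : Mat) = x := by
    intro h hh
    have mv : ∀ g ∈ H, (x ᵥ* (g : Mat)) ᵥ* D = x ᵥ* (g : Mat) →
        ((x ᵥ* ((h * n * h⁻¹ : GG) : Mat)) ᵥ* (g : Mat)) ᵥ* D =
          (x ᵥ* ((h * n * h⁻¹ : GG) : Mat)) ᵥ* (g : Mat) := by
      intro g hg e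
      have e' : h * n * h⁻¹ * g = g * (g⁻¹ * h * n * (g⁻¹ * h)⁻¹) := by group
      have e2 : (x ᵥ* ((h * n * h⁻¹ : GG) : Mat)) ᵥ* (g : Mat) =
          (x ᵥ* (g : Mat)) ᵥ* ((g⁻¹ * h * n * (g⁻¹ * h)⁻¹ : GG) : Mat) := by
        rw [Matrix.vecMul_vecMul, Matrix.vecMul_vecMul, ← Units.val_mul, ← Units.val_mul, e']
      rw [e2]
      exact stab _ (hn _ (H.mul_mem (H.inv_mem hg) hh)) _ e
    exact (uniq _ (ne _ _ hv) (stab _ (hn h hh) x a1) (mv g1 hg1 a2) (mv g2 hg2 a3)).trans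
      (uniq x hv a1 a2 a3).symm
  let S : Submodule (ZMod 2) Vec :=
    { carrier := {y | ∀ h ∈ H, y ᵥ* ((h * n * h⁻¹ : GG) : Mat) = y}
      add_mem' := fun {a b} ha hb h hh => by rw [Matrix.add_vecMul, ha h hh, hb h hh]
      zero_mem' := fun h _ => Matrix.zero_vecMul _
      smul_mem' := fun c y hy h hh => by rw [Matrix.smul_vecMul, hy h hh] }
  refine (hi S (fun g hg y hy h hh => ?_)).elim (fun e => ?_) (fun e => ?_)
  rotate_left
  · have : x ∈ S := fix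
    rw [e] at this
    exact absurd this hv
  · apply Units.ext
    by_contra g
    obtain ⟨y, hy⟩ := exists_vec_ne (sub_ne_zero.2 g)
    have : y ∈ S := e ▸ Submodule.mem_top
    have := this 1 H.one_mem
    rw [one_mul, inv_one, mul_one] at this
    exact hy (by rw [Matrix.vecMul_sub, this, Units.val_one, Matrix.vecMul_one, sub_self])
  · have := hy _ (H.mul_mem hg hh)
    conv_rhs => rw [← this]
    have e' : g * (h * n * h⁻¹) = g * h * n * (g * h)⁻¹ * g := by group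
    rw [Matrix.vecMul_vecMul, Matrix.vecMul_vecMul, ← Units.val_mul, ← Units.val_mul, e']

end Pool.Agent.Lib.MP_14dda7_al
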