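import Pool.Agent.Lib.MP_14dda7_al.Chk2
import Pool.Agent.Lib.MP_14dda7_al.Data

/-! Kernel evaluation of the certificates. -/

namespace Pool.Agent.Lib.MP_14dda7_al

set_option maxRecDepth 100000

theorem run_pcB2 : chkPc env pcB2 lB2 = true := by decide +kernel

theorem run_pcB3 : chkPc env pcB3 [(3, 3), (1, 7), (0, 7), (2, 7)] = true := by decide +kernel

theorem run_pc55 : chkPc env pc55 [(28, 5), (27, 5)] = true := by decide +kernel

theorem run_pc17 : chkPc env [(List.replicate 17 12, [])] [(12, 17)] = true := by decide +kernel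

end Pool.Agent.Lib.MP_14dda7_al
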