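import Pool.Agent.Lib.MP_14dda7_al.Chk2
import Pool.Agent.Lib.MP_14dda7_al.Data

/-! Kernel evaluation of the certificates. -/

namespace Pool.Agent.Lib.MP_14dda7_al

set_option maxRecDepth 100000

theorem run_cfix : cfix env dA (ev env [1, 4]) (ev env [4, 4, 4, 9]) (env 12)
    [(3, 3), (1, 7), (0, 7), (2, 7)] = true := by decide +kernel

theorem run_inv : [(3, 3), (1, 7), (0, 7), (2, 7)].all
    (fun x : ℕ × ℕ => eqw env [x.1, x.1 + 8] []) = true := by decide +kernel

theorem run_t1 : eqw env ([1, 4] ++ [4, 4, 4, 9]) [] = true := by decide +kernel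

end Pool.Agent.Lib.MP_14dda7_al
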