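import Pool.Agent.Lib.MP_14dda7_al.Chk2
import Pool.Agent.Lib.MP_14dda7_al.Data

/-! Kernel evaluation of the certificates. -/

namespace Pool.Agent.Lib.MP_14dda7_al

set_option maxRecDepth 100000

theorem run_dA : Nat.beq (mul dA dA) dA = true := by decide +kernel

theorem run_dB : Nat.beq (mul dB dB) dB = true := by decide +kernel

theorem run_stabA : [12, 13].all
    (fun i => Nat.beq (mul dA (env i)) (mul (mul dA (env i)) dA)) = true := by decide +kernel

theorem run_stabB : [12, 13].all
    (fun i => Nat.beq (mul dB (env i)) (mul (mul dB (env i)) dB)) = true := by decide +kernel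

theorem run_stabR : [3, 1, 0, 2].all
    (fun i => Nat.beq (mul (env i) lam) (mul lam (mul (mul lin (env i)) lam))) = true := by
  decide +kernel

theorem run_g0 : Nat.beq (mul (mul (mul dA (ev env [])) lam) cr0) dA = true := by decide +kernel

theorem run_g0' : Nat.beq (mul cl0 (mul (mul dA (ev env [])) lam)) lam = true := by decide +kernel

theorem run_g1 : Nat.beq (mul (mul (mul dA (ev env [1, 4])) lam) cr1) dA = true := by
  decide +kernel

theorem run_g1' : Nat.beq (mul cl1 (mul (mul dA (ev env [1, 4])) lam)) lam = true := by
  decide +kernel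

theorem run_z1 : neM (Nat.xor idm (mul lam lin)) 0 = true := by decide +kernel

theorem run_z2 : Nat.beq (mul (Nat.xor idm (mul lam lin)) lam) 0 = true := by decide +kernel

theorem run_z3 : neM lam 0 = true := by decide +kernel

theorem run_z4 : neM (Nat.xor idm dA) 0 = true := by decide +kernel

theorem run_z5 : Nat.beq (mul dA (Nat.xor idm dA)) 0 = true := by decide +kernel

theorem run_z6 : neM dA 0 = true := by decide +kernel

theorem run_c1 : Nat.beq (mul dB (Nat.xor idm dB)) 0 = true := by decide +kernel

theorem run_c2 : Nat.beq (mul dB (Nat.xor (Nat.xor (mul (mul (env 0) (Nat.xor idm dB)) coC)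
    (mul (mul (env 1) (Nat.xor idm dB)) coD)) (mul (mul coQ 1) coU))) dB = true := by
  decide +kernel

theorem run_c3 : neM coU 0 = true := by decide +kernel

theorem run_c4 : Nat.beq (mul coU dB) coU = true := by decide +kernel

theorem run_c5 : Nat.beq (mul (mul coU (env 0)) dB) (mul coU (env 0)) = true := by decide +kernel

theorem run_c6 : Nat.beq (mul (mul coU (env 1)) dB) (mul coU (env 1)) = true := by decide +kernel

theorem run_i1 : Nat.beq (mul (mul irQ 1) irU) (evP env eP) = true := by decide +kernel

theorem run_i2 : Nat.beq (mul (kryN (mul (mul irQ 1) irU) (evS env th) 100) irM) idm = true := by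
  decide +kernel

end Pool.Agent.Lib.MP_14dda7_al
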