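import Pool.Agent.Lib.MP_14dda7_al.RunA
import Pool.Agent.Lib.MP_14dda7_al.RunB
import Pool.Agent.Lib.MP_14dda7_al.RunC
import Pool.Agent.Lib.MP_14dda7_al.RunD

/-! Assembly: order, simplicity, irreducibility and the regular partitions. -/

namespace Pool.Agent.Lib.MP_14dda7_al

open Matrix

theorem hE : ∀ i, Ok (env i) := ok_getD envL run_ok

attribute [local irreducible] Sg gam wp toM env mul ev

noncomputable abbrev HH : Subgroup GG := Sg env [3, 1, 0, 2, 4, 5]

noncomputable abbrev KK : Subgroup GG := Sg env [12, 13]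

noncomputable abbrev BB : Subgroup GG := Sg env [3, 1, 0, 2]

theorem memH_le : Sg env [12, 13, 6] ≤ HH := mem_sound hE run_memH

theorem KH : KK ≤ HH := Sg_le env (fun i hi => memH_le (gam_mem env (by
  simp only [List.mem_cons, List.not_mem_nil, or_false] at hi ⊢; omega)))

theorem BH : BB ≤ HH := Sg_le env (fun i hi => gam_mem env (by
  simp only [List.mem_cons, List.not_mem_nil, or_false] at hi ⊢; omega))

theorem pcB : (∀ g ∈ BB, NF env [(3, 3), (1, 7), (0, 7), (2, 7)] g) ∧ Nat.card BB = 1029 :=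
  pc_sound hE pcB3 _ run_pcB3 (by norm_num)

theorem card_K : Nat.card KK = 1958400 := by
  have m : Sg env [16, 17, 18, 19, 20, 21, 22, 23, 24, 25, 26, 27, 28] ≤ KK :=
    mem_sound hE run_memK
  have c1 : Nat.card (Sg env (lB2.map Prod.fst)) = 4608 :=
    (pc_sound hE pcB2 lB2 run_pcB2 (by norm_num [lB2])).2
  have c2 : Nat.card (Sg env [28, 27]) = 25 := (pc_sound hE pc55 _ run_pc55 (by norm_num)).2
  have c3 : Nat.card (Sg env [12]) = 17 := (pc_sound hE _ _ run_pc17 (by norm_num)).2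
  have l1 : Sg env (lB2.map Prod.fst) ≤ KK := Sg_le env (fun i hi => m (gam_mem env (by
    simp only [lB2, List.map, List.mem_cons, List.not_mem_nil, or_false] at hi ⊢; omega)))
  have l2 : Sg env [28, 27] ≤ KK := Sg_le env (fun i hi => m (gam_mem env (by
    simp only [List.mem_cons, List.not_mem_nil, or_false] at hi ⊢; omega)))
  have l3 : Sg env [12] ≤ KK := Sg_le env (fun i hi => gam_mem env (by
    simp only [List.mem_cons, List.not_mem_nil, or_false] at hi ⊢; omega))
  have d1 := Subgroup.card_dvd_of_le l1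
  have d2 := Subgroup.card_dvd_of_le l2
  have d3 := Subgroup.card_dvd_of_le l3
  have u1 : Nat.card KK ≤ _ := tab_card hE run_tabK (by decide)
  have u2 := tab_card hE run_tabP (by decide)
  have e1 : t85.length = 85 := by decide
  have e2 : t5.length = 5 := by decide
  rw [c1] at d1
  rw [c2] at d2
  rw [c3] at d3
  rw [e1] at u1
  rw [e2, c1] at u2
  have d4 : 4608 * 25 * 17 ∣ Nat.card KK :=
    Nat.Coprime.mul_dvd_of_dvd_of_dvd (by norm_num)
      (Nat.Coprime.mul_dvd_of_dvd_of_dvd (by norm_num) d1 d2) d3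
  have p : 0 < Nat.card KK := Nat.card_pos
  exact le_antisymm (by omega) (Nat.le_of_dvd p d4)

theorem decomp : ∀ h ∈ HH, ∃ k ∈ KK, ∃ t ∈ [[], [1, 4]], ∃ b ∈ BB, h = k * wp env t * b := by
  intro h hh
  have hb : ∀ i ∈ [3, 1, 0, 2], ∀ x : GG,
      (∃ k ∈ KK, ∃ t ∈ [[], [1, 4]], ∃ b ∈ BB, x = k * wp env t * b) →
      ∃ k ∈ KK, ∃ t ∈ [[], [1, 4]], ∃ b ∈ BB, x * gam env i = k * wp env t * b := by
    rintro i hi _ ⟨k, hk, t, ht, b, hb, rfl⟩
    exact ⟨k, hk, t, ht, _, Subgroup.mul_mem _ hb (gam_mem env hi), mul_assoc _ _ _⟩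
  have hh' : h ∈ Subgroup.closure {g | ∃ i ∈ [3, 1, 0, 2, 4, 5], gam env i = g} := by
    unfold HH Sg at hh
    exact hh
  have := closure_right
    (fun x => ∃ k ∈ KK, ∃ t ∈ [[], [1, 4]], ∃ b ∈ BB, x = k * wp env t * b) _ ?_ hh' 1
    ⟨1, Subgroup.one_mem _, [], by simp, 1, Subgroup.one_mem _, by simp⟩
  · rwa [one_mul] at this
  rintro _ ⟨i, hi, rfl⟩
  simp only [List.mem_cons, List.not_mem_nil, or_false] at hi
  rcases hi with rfl | rfl | rfl | rfl | rfl | rfl
  · exact hb _ (by simp)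
  · exact hb _ (by simp)
  · exact hb _ (by simp)
  · exact hb _ (by simp)
  · exact top_sound hE run_topw (tab_sound hE run_tabB (by decide))
  · exact top_sound hE run_topr (fun b hb => ⟨b, hb, [], by simp, by simp⟩)

theorem dA_idem : toM dA * toM dA = toM dA := by rw [← toM_mul]; exact toM_beq run_dA

theorem K_stabA : KK ≤ StabL (toM dA) := stabL_sound hE run_stabA

theorem c_fix : ∀ m ∈ HH, m * gam env 12 * m⁻¹ ∈ KK → m ∈ KK := by
  intro m hm h
  obtain ⟨k, hk, t, ht, b, hb, rfl⟩ := decomp m hm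
  have e : wp env t * b * gam env 12 * (wp env t * b)⁻¹ =
      k⁻¹ * (k * wp env t * b * gam env 12 * (k * wp env t * b)⁻¹) * k := by group
  have h1 : wp env t * b * gam env 12 * (wp env t * b)⁻¹ ∈ StabL (toM dA) := by
    rw [e]
    exact K_stabA (Subgroup.mul_mem _ (Subgroup.mul_mem _ (Subgroup.inv_mem _ hk) h) hk)
  obtain ⟨g1, g2⟩ := cfix_sound hE dA_idem run_cfix run_inv run_t1 b (pcB.1 b hb)
  simp only [List.mem_cons, List.not_mem_nil, or_false] at ht
  rcases ht with rfl | rfl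
  · rw [wp_nil, one_mul] at h1
    rw [g1.resolve_right (fun g => g h1), wp_nil, mul_one, mul_one]
    exact hk
  · exact absurd h1 g2

theorem rels : gam env 0 ^ 7 = 1 ∧ gam env 1 ^ 7 = 1 ∧ gam env 2 ^ 7 = 1 ∧ gam env 6 ^ 7 = 1 ∧
    gam env 5 ^ 3 = 1 ∧ wp env [5, 4, 4, 5, 5, 4, 4] = wp env [5, 5] ∧ gam env 12 ^ 17 = 1 := by
  have h := run_rel
  simp only [Bool.and_eq_true] at h
  obtain ⟨⟨⟨⟨⟨⟨h1, h2⟩, h3⟩, h4⟩, h5⟩, h6⟩, h7⟩ := h
  have key : ∀ n i, eqw env (List.replicate n i) [] = true → gam env i ^ n = 1 := fun n i h => by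
    rw [← wp_replicate, eqw_sound hE h, wp_nil]
  exact ⟨key _ _ h1, key _ _ h2, key _ _ h3, key _ _ h4, key _ _ h5, eqw_sound hE h6, key _ _ h7⟩

theorem idx : KK.relIndex HH = 2058 := by
  have h1 := relIndex_mod KK HH KH _ (gam_mem env (by simp)) rels.2.2.2.2.2.2 c_fix
  have h2 := card_eq_relIndex KH
  have h3 := Subgroup.card_dvd_of_le BH
  have h4 := card_le_cover HH KK ((BB : Set GG) ∪ (fun b => wp env [1, 4] * b) '' BB)
    (fun h hh => by
      obtain ⟨k, hk, t, ht, b, hb, rfl⟩ := decomp h hh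
      simp only [List.mem_cons, List.not_mem_nil, or_false] at ht
      rcases ht with rfl | rfl
      · exact ⟨k, hk, b, Or.inl hb, by rw [wp_nil, mul_one]⟩
      · exact ⟨k, hk, _, Or.inr ⟨b, hb, rfl⟩, mul_assoc _ _ _⟩)
  have h5 : (BB : Set GG).ncard = 1029 := by
    rw [← Nat.card_coe_set_eq]; exact pcB.2
  have h6 := Set.ncard_union_le (BB : Set GG) ((fun b => wp env [1, 4] * b) '' BB)
  have h7 : ((fun b => wp env [1, 4] * b) '' (BB : Set GG)).ncard ≤ (BB : Set GG).ncard :=
    Set.ncard_image_le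
  rw [pcB.2, h2, card_K] at h3
  rw [h2, card_K] at h4
  have h8 : 343 ∣ KK.relIndex HH :=
    Nat.Coprime.dvd_of_dvd_mul_left (by norm_num) (Dvd.dvd.trans (by norm_num) h3)
  have h9 := Nat.le_of_mul_le_mul_left h4 (by norm_num)
  omega

theorem card_H : Nat.card HH = 4030387200 := by
  rw [card_eq_relIndex KH, card_K, idx]

theorem irr : Irred HH ∧ Irred (dual HH) := by
  have e1 := toM_beq run_i1
  have e2 := toM_beq run_i2
  rw [toM_mul, toM_kryN, toM_idm] at e2
  rw [toM_mul, toM_mul] at e1 e2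
  have m2 : toM (evS env th) ∈ Alg HH := evS_mem hE (by decide)
  exact irred_both HH _ _ _ _ 100 (by rw [e1]; exact evP_mem hE (by decide)) m2 m2
    (IsUnit.of_mul_eq_one _ e2)

theorem simple_H : IsSimpleGroup HH := by
  refine simple_of HH KK KH _ (gam_mem env (by simp)) rels.2.2.2.2.2.2 c_fix idx card_K
    (fun n hn => ?_) (fun N hc h7 => ?_)
  · have c0 := toM_beq run_dB
    have c1 := toM_beq run_c1
    have c2 := toM_beq run_c2
    have c3 := neM_sound run_c3
    have c4 := toM_beq run_c4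
    have c5 := toM_beq run_c5
    have c6 := toM_beq run_c6
    rw [toM_mul] at c0 c1 c4
    rw [toM_zero] at c1 c3
    rw [toM_mul, toM_xor, toM_xor, toM_mul, toM_mul, toM_mul, toM_mul, toM_mul, toM_mul,
      ← gam_val hE, ← gam_val hE] at c2
    rw [toM_mul, toM_mul, ← gam_val hE] at c5 c6
    exact core_trivial HH irr.1 _ _ _ _ _ _ _ _ _ (gam_mem env (by simp)) (gam_mem env (by simp))
      c0 c1 c2 c3 c4 c5 c6 n (fun h hh => stabL_sound hE run_stabB (hn h hh))
  · obtain ⟨r0, r1, r2, r6, r5, rr, -⟩ := rels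
    have n0 := h7 _ (gam_mem env (by simp)) r0
    have n1 := h7 _ (gam_mem env (by simp)) r1
    have n2 := h7 _ (gam_mem env (by simp)) r2
    have n6 := h7 _ (memH_le (gam_mem env (by simp))) r6
    have l1 : Sg env [3, 4] ≤ N := (mem_sound hE run_memY).trans (Sg_le env (by
      simp only [List.mem_cons, List.not_mem_nil, or_false]
      rintro _ (rfl | rfl) <;> assumption))
    have n3 : gam env 3 ∈ N := l1 (gam_mem env (by simp))
    have n4 : gam env 4 ∈ N := l1 (gam_mem env (by simp))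
    have n5 : gam env 5 ∈ N := by
      have h1 := hc _ (gam_mem env (show 5 ∈ [3, 1, 0, 2, 4, 5] by simp)) _ (N.mul_mem n4 n4)
      simp only [wp_cons, wp_nil, mul_one] at rr
      generalize gam env 5 = r at *
      generalize gam env 4 = w at *
      have e1 : r⁻¹ = r * r := by
        rw [inv_eq_iff_mul_eq_one, ← r5, pow_succ, pow_two, mul_assoc]
      have e2 : r ^ 2 = r * (w * w) * r⁻¹ * (w * w) := by
        rw [pow_two, ← rr, e1]; simp only [mul_assoc]
      exact mem_of_pow_coprime (j := 2) (p := 3) (e2 ▸ N.mul_mem h1 (N.mul_mem n4 n4))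
        (r5 ▸ N.one_mem) (by norm_num)
    refine Sg_le env ?_
    simp only [List.mem_cons, List.not_mem_nil, or_false]
    rintro _ (rfl | rfl | rfl | rfl | rfl | rfl) <;> assumption

theorem good_H : ∀ h ∈ HH, Good (toM dA) (toM lam) (h : Mat) := by
  intro h hh
  obtain ⟨k, hk, t, ht, b, hb, rfl⟩ := decomp h hh
  refine Good.mul ?_ (K_stabA hk) (stabR_sound hE run_stabR hb)
  simp only [List.mem_cons, List.not_mem_nil, or_false] at ht
  rcases ht with rfl | rfl
  · exact good_sound hE run_g0 run_g0'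
  · exact good_sound hE run_g1 run_g1'

theorem not_sync_H : ¬ Synchronizing (affine HH) := by
  have z1 := neM_sound run_z1
  have z2 := toM_beq run_z2
  have z3 := neM_sound run_z3
  rw [toM_mul] at z2
  rw [toM_zero] at z1 z2 z3
  exact not_sync HH _ _ _ good_H z1 z2 z3

theorem not_sync_dual : ¬ Synchronizing (affine (dual HH)) := by
  have z1 := neM_sound run_z4
  have z2 := toM_beq run_z5
  have z3 := neM_sound run_z6
  rw [toM_mul] at z2
  rw [toM_zero] at z1 z2 z3
  refine not_sync _ (toM lam)ᵀ (toM dA)ᵀ (toM (Nat.xor idm dA))ᵀ (fun g hg => ?_)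
    (fun e => z1 (Matrix.transpose_eq_zero.1 e)) ?_ (fun e => z3 (Matrix.transpose_eq_zero.1 e))
  · obtain ⟨h, hh, e⟩ := dual_elem hg
    rw [e]
    exact (good_H h hh).transpose
  · rw [← Matrix.transpose_mul, z2, Matrix.transpose_zero]

end Pool.Agent.Lib.MP_14dda7_al
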