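import Pool.Agent.Lib.MP_14dda7_al.Chk2
import Pool.Agent.Lib.MP_14dda7_al.Data

/-! Kernel evaluation of the certificates. -/

namespace Pool.Agent.Lib.MP_14dda7_al

set_option maxRecDepth 100000

theorem run_ok : envL.all (fun x => Nat.beq (pwN x.1 x.2) idm) = true := by decide +kernel

theorem run_memH : chkMem env [3, 1, 0, 2, 4, 5] memH = true := by decide +kernel

theorem run_memK : chkMem env [12, 13] memK = true := by decide +kernel

theorem run_memY : chkMem env [1, 6] memY = true := by decide +kernel

theorem run_tabK : chkTab env [14, 15] [12, 13] t85 tabK = true := by decide +kernel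

theorem run_tabP : chkTab env (lB2.map Prod.fst) [14, 15] t5 tabP = true := by decide +kernel

theorem run_tabB : chkTab env [3, 0, 2] [3, 1, 0, 2] ty tabB = true := by decide +kernel

theorem run_topw : chkTop env [12, 13] [3, 1, 0, 2] [3, 0, 2] [[], [1, 4]] ty 4 c1w c2w = true := by
  decide +kernel

theorem run_topr :
    chkTop env [12, 13] [3, 1, 0, 2] [3, 1, 0, 2] [[], [1, 4]] [[]] 5 c1r c2r = true := by
  decide +kernel

theorem run_rel : (eqw env (List.replicate 7 0) [] && eqw env (List.replicate 7 1) [] &&
    eqw env (List.replicate 7 2) [] && eqw env (List.replicate 7 6) [] &&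
    eqw env (List.replicate 3 5) [] && eqw env [5, 4, 4, 5, 5, 4, 4] [5, 5] &&
    eqw env (List.replicate 17 12) []) = true := by decide +kernel

end Pool.Agent.Lib.MP_14dda7_al
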